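import Pool.Agent.Helper13.FR.Stmts

/-!
# Module ERR: the part which is small in mean square
-/

set_option autoImplicit false

open Finset Filter
open scoped ComplexConjugate

namespace Pool.Agent.Helper13.FR

open Pool.Agent.Helper16.MD

private lemma err_shift (P : ℕ) (h : ℕ → ℝ) (hP : ∀ x, h (x + P) = h x) (c : ℕ) :
    ∑ x ∈ range P, h (x + c) = ∑ x ∈ range P, h x := by
  induction c with
  | zero => rfl
  | succ c ih =>
    have h1 := Finset.sum_range_succ (fun x => h (x + c)) P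
    have h2 := Finset.sum_range_succ' (fun x => h (x + c)) P
    have h3 : ∀ x, h (x + 1 + c) = h (x + (c + 1)) := fun x => by
      congr 1
      ring
    simp only [h3, zero_add] at h2
    rw [Nat.add_comm P c, hP c] at h1
    linarith

private lemma err_mul (P : ℕ) (h : ℕ → ℝ) (hP : ∀ x, h (x + P) = h x) (k : ℕ) :
    ∑ x ∈ range (k * P), h x = k * ∑ x ∈ range P, h x := by
  induction k with
  | zero => simp
  | succ k ih =>
    rw [Nat.succ_mul, Finset.sum_range_add, ih]
    have h1 : ∑ x ∈ range P, h (k * P + x) = ∑ x ∈ range P, h x := by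
      rw [← err_shift P h hP (k * P)]
      exact Finset.sum_congr rfl fun x _ => by rw [Nat.add_comm]
    rw [h1]
    push_cast
    ring

private lemma err_div (n Λ : ℕ) (hn : 1 ≤ n) (f : ℕ → ℝ) :
    ∑ x ∈ range (n * Λ), f (x / n) = n * ∑ s ∈ range Λ, f s := by
  induction Λ with
  | zero => simp
  | succ Λ ih =>
    rw [Nat.mul_succ, Finset.sum_range_add, ih, Finset.sum_range_succ, mul_add]
    congr 1
    have h1 : ∀ x ∈ range n, f ((n * Λ + x) / n) = f Λ := by
      intro x hx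
      have hx' := Finset.mem_range.mp hx
      rw [Nat.mul_add_div hn, Nat.div_eq_of_lt hx', add_zero]
    rw [Finset.sum_congr rfl h1, Finset.sum_const, Finset.card_range, nsmul_eq_mul]

theorem st_ERR : ST_ERR := by
  intro n Λ a N φ E ω ε hn hΛ hε hb hE hs
  set P : ℕ := n * Λ with hP
  have hP0 : 0 < P := Nat.mul_pos hn hΛ
  set g : ℕ → ℝ := fun x => ‖E (x / n)‖ with hg
  have hgP : ∀ x, g (x + P) = g x := by
    intro x
    rw [hg]
    have h1 : (x + P) / n = x / n + Λ := by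
      rw [hP, Nat.add_mul_div_left _ _ hn]
    change ‖E ((x + P) / n)‖ = ‖E (x / n)‖
    rw [h1, hE]
  have hg0 : ∀ x, 0 ≤ g x := fun x => norm_nonneg _
  have h1 : ‖MS (FF n Λ a φ E ω) N‖ ≤ ∑ x ∈ Icc 1 N, g (x + a) := by
    unfold MS
    refine (norm_sum_le _ _).trans (Finset.sum_le_sum fun x _ => ?_)
    unfold FF
    rw [norm_mul, norm_mul, norm_mul]
    have m1 : ‖((ArithmeticFunction.moebius x : ℤ) : ℂ)‖ ≤ 1 := by
      rw [Complex.norm_intCast]
      exact_mod_cast ArithmeticFunction.abs_moebius_le_one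
    have m2 := (hb x).1
    have m3 := (hb ((x + a) / (n * Λ))).2
    have e0 : 0 ≤ ‖E ((x + a) / n)‖ := norm_nonneg _
    calc ‖((ArithmeticFunction.moebius x : ℤ) : ℂ)‖ *
          (‖φ x‖ * ‖E ((x + a) / n)‖ * ‖ω ((x + a) / (n * Λ))‖) ≤
        1 * (1 * ‖E ((x + a) / n)‖ * 1) := by gcongr
      _ = g (x + a) := by
        rw [hg]
        ring
  set k : ℕ := N / P + 1 with hk
  have hkP : N ≤ k * P := by
    have := Nat.lt_div_mul_add hP0 (a := N)
    rw [hk, Nat.add_mul, one_mul]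
    exact this.le
  have hkP2 : k * P ≤ N + P := by
    rw [hk, Nat.add_mul, one_mul]
    exact Nat.add_le_add_right (Nat.div_mul_le_self N P) P
  have h2 : ∑ x ∈ Icc 1 N, g (x + a) ≤ ∑ x ∈ range (k * P), g (x + (1 + a)) := by
    have e1 : Icc 1 N = Ico 1 (N + 1) := by
      ext x
      simp only [Finset.mem_Icc, Finset.mem_Ico]
      omega
    rw [e1, Finset.sum_Ico_eq_sum_range, Nat.add_sub_cancel]
    have e2 : ∀ x ∈ range N, g (1 + x + a) = g (x + (1 + a)) := fun x _ => by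
      congr 1
      ring
    rw [Finset.sum_congr rfl e2]
    refine Finset.sum_le_sum_of_subset_of_nonneg ?_ fun x _ _ => hg0 _
    intro x hx
    rw [Finset.mem_range] at hx ⊢
    omega
  have h3 : ∑ x ∈ range (k * P), g (x + (1 + a)) = k * ∑ x ∈ range P, g x := by
    rw [err_mul P (fun x => g (x + (1 + a))) (fun x => by
      have e3 : x + P + (1 + a) = x + (1 + a) + P := by ring
      change g (x + P + (1 + a)) = g (x + (1 + a))
      rw [e3, hgP]) k, err_shift P g hgP (1 + a)]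
  have h4 : ∑ x ∈ range P, g x = n * ∑ s ∈ range Λ, ‖E s‖ := by
    rw [hP]
    exact err_div n Λ hn fun s => ‖E s‖
  have h5 : ∑ s ∈ range Λ, ‖E s‖ ≤ Λ * Real.sqrt ε := by
    have c1 : (∑ s ∈ range Λ, ‖E s‖) ^ 2 ≤ (Λ * Real.sqrt ε) ^ 2 := by
      have := sq_sum_le_card_mul_sum_sq (s := range Λ) (f := fun s => ‖E s‖)
      rw [Finset.card_range] at this
      refine this.trans ?_
      rw [mul_pow, Real.sq_sqrt hε]
      calc (Λ : ℝ) * ∑ s ∈ range Λ, ‖E s‖ ^ 2 ≤ Λ * (ε * Λ) :=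
            mul_le_mul_of_nonneg_left hs (Nat.cast_nonneg _)
        _ = (Λ : ℝ) ^ 2 * ε := by ring
    exact (pow_le_pow_iff_left₀ (Finset.sum_nonneg fun s _ => norm_nonneg _) (by positivity)
      two_ne_zero).mp c1
  have hk0 : (0 : ℝ) ≤ k := Nat.cast_nonneg _
  have hn0 : (0 : ℝ) ≤ n := Nat.cast_nonneg _
  calc ‖MS (FF n Λ a φ E ω) N‖ ≤ k * ∑ x ∈ range P, g x := (h1.trans h2).trans (le_of_eq h3)
    _ = k * (n * ∑ s ∈ range Λ, ‖E s‖) := by rw [h4]
    _ ≤ k * (n * (Λ * Real.sqrt ε)) := by gcongr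
    _ = ((k * P : ℕ) : ℝ) * Real.sqrt ε := by
      rw [hP]
      push_cast
      ring
    _ ≤ ((N : ℝ) + 2 * n * Λ) * Real.sqrt ε := by
      refine mul_le_mul_of_nonneg_right ?_ (Real.sqrt_nonneg _)
      have c1 : ((k * P : ℕ) : ℝ) ≤ ((N + P : ℕ) : ℝ) := by exact_mod_cast hkP2
      have c2 : ((N + P : ℕ) : ℝ) = N + n * Λ := by
        rw [hP]
        push_cast
        ring
      rw [c2] at c1
      have c3 : (0 : ℝ) ≤ n * Λ := by positivity
      linarith

end Pool.Agent.Helper13.FR
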