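import Pool.Agent.Helper13.FR.Stmts

/-!
# Module PIG: pigeonhole
-/

set_option autoImplicit false

open Finset Filter
open scoped ComplexConjugate

namespace Pool.Agent.Helper13.FR

open Pool.Agent.Helper16.MD

private lemma pig_fract (x : ℝ) : ee x = ee (Int.fract x) := by
  unfold ee
  have h : x = Int.fract x + (⌊x⌋ : ℝ) := by
    rw [Int.fract_add_floor]
  conv_lhs => rw [h]
  have h2 : (((2 * Real.pi * (Int.fract x + (⌊x⌋ : ℝ)) : ℝ) : ℂ) * Complex.I) =
      (((2 * Real.pi * Int.fract x : ℝ) : ℂ) * Complex.I) +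
        (⌊x⌋ : ℂ) * (2 * Real.pi * Complex.I) := by
    push_cast
    ring
  rw [h2, Complex.exp_add, Complex.exp_int_mul_two_pi_mul_I, mul_one]

private lemma pig_lip (x y : ℝ) : ‖ee x - ee y‖ ≤ 2 * Real.pi * |x - y| := by
  unfold ee
  have h1 : Complex.exp (((2 * Real.pi * x : ℝ) : ℂ) * Complex.I) -
      Complex.exp (((2 * Real.pi * y : ℝ) : ℂ) * Complex.I) =
      Complex.exp (((2 * Real.pi * y : ℝ) : ℂ) * Complex.I) *
        (Complex.exp (Complex.I * ((2 * Real.pi * (x - y) : ℝ) : ℂ)) - 1) := by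
    rw [mul_sub, ← Complex.exp_add, mul_one]
    congr 2
    push_cast
    ring
  rw [h1, norm_mul, Complex.norm_exp_ofReal_mul_I, one_mul]
  refine (Real.norm_exp_I_mul_ofReal_sub_one_le).trans ?_
  rw [Real.norm_eq_abs, abs_mul, abs_of_pos (by positivity)]

theorem st_PIG : ST_PIG := by
  classical
  intro Λ M S hΛ hM
  set key : ℕ → (S → ℕ) := fun s ξ => ⌊(M : ℝ) * Int.fract ((ξ : ℝ) * s / Λ)⌋₊ with hkey
  set T : Finset (S → ℕ) := Fintype.piFinset fun _ : S => range M with hT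
  have hMR : (0 : ℝ) < M := by exact_mod_cast hM
  have hmaps : ∀ s ∈ range Λ, key s ∈ T := by
    intro s _
    rw [hT, Fintype.mem_piFinset]
    intro ξ
    rw [Finset.mem_range, hkey]
    have h1 := Int.fract_lt_one (((ξ : ℕ) : ℝ) * s / Λ)
    have h0 := Int.fract_nonneg (((ξ : ℕ) : ℝ) * s / Λ)
    rw [Nat.floor_lt (by positivity)]
    calc (M : ℝ) * Int.fract (((ξ : ℕ) : ℝ) * s / Λ) < M * 1 :=
          mul_lt_mul_of_pos_left h1 hMR
      _ = M := mul_one _
  have hTc : T.card = M ^ S.card := by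
    rw [hT, Fintype.card_piFinset, Finset.prod_const, Finset.card_range, Finset.card_univ, Fintype.card_coe]
  have hTn : T.Nonempty := ⟨key 0, hmaps 0 (Finset.mem_range.mpr hΛ)⟩
  have hex : ∃ y ∈ T, Λ ≤ M ^ S.card * ((range Λ).filter fun s => key s = y).card := by
    by_contra hcon
    push Not at hcon
    have h1 : ∑ y ∈ T, M ^ S.card * ((range Λ).filter fun s => key s = y).card <
        ∑ _y ∈ T, Λ := Finset.sum_lt_sum_of_nonempty hTn hcon
    rw [← Finset.mul_sum, ← Finset.card_eq_sum_card_fiberwise hmaps, Finset.card_range,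
      Finset.sum_const, hTc, smul_eq_mul] at h1
    exact lt_irrefl _ h1
  obtain ⟨y, _, hy⟩ := hex
  refine ⟨(range Λ).filter fun s => key s = y, Finset.filter_subset _ _, hy, ?_⟩
  intro ξ hξ s hs t ht
  have hs' := (Finset.mem_filter.mp hs).2
  have ht' := (Finset.mem_filter.mp ht).2
  have h1 : ⌊(M : ℝ) * Int.fract ((ξ : ℝ) * s / Λ)⌋₊ =
      ⌊(M : ℝ) * Int.fract ((ξ : ℝ) * t / Λ)⌋₊ := by
    have h2 : key s ⟨ξ, hξ⟩ = key t ⟨ξ, hξ⟩ := by rw [hs', ht']
    exact h2
  set u : ℝ := Int.fract ((ξ : ℝ) * s / Λ) with hu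
  set v : ℝ := Int.fract ((ξ : ℝ) * t / Λ) with hv
  have hu0 : 0 ≤ u := Int.fract_nonneg _
  have hv0 : 0 ≤ v := Int.fract_nonneg _
  have a1 := Nat.floor_le (show 0 ≤ (M : ℝ) * u by positivity)
  have a2 := Nat.lt_floor_add_one ((M : ℝ) * u)
  have a3 := Nat.floor_le (show 0 ≤ (M : ℝ) * v by positivity)
  have a4 := Nat.lt_floor_add_one ((M : ℝ) * v)
  rw [h1] at a1 a2
  have h2 : |u - v| ≤ 1 / M := by
    rw [abs_le]
    constructor
    · have : -(1 : ℝ) ≤ M * (u - v) := by linarith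
      rw [neg_le_iff_add_nonneg]
      have h3 : 0 ≤ (M * (u - v) + 1) / M := div_nonneg (by linarith) hMR.le
      have h4 : (M * (u - v) + 1) / M = u - v + 1 / M := by
        field_simp
      linarith
    · rw [le_div_iff₀ hMR]
      linarith
  rw [pig_fract, pig_fract ((ξ : ℝ) * t / Λ), ← hu, ← hv]
  refine (pig_lip u v).trans ?_
  have h3 : 2 * Real.pi ≤ 7 := by linarith [Real.pi_lt_d2]
  calc 2 * Real.pi * |u - v| ≤ 7 * (1 / M) :=
        mul_le_mul h3 h2 (abs_nonneg _) (by norm_num)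
    _ = 7 / M := by ring

end Pool.Agent.Helper13.FR
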